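import Pool.Agent.Work.MP_510402_an.Interface

set_option autoImplicit false

/-!
# MP_510402_an : block EUC (helper59)

The Euclidean norm lemma (Kwapien, Lindenstrauss-Pelczynski).
-/

namespace Pool.HAP.EUC

open scoped BigOperators InnerProductSpace Pointwise MatrixOrder
open Pool.HAP

attribute [local instance] Matrix.normedAddCommGroup Matrix.normedSpace

/-- Square matrices. -/
abbrev Mat (n : ℕ) := Matrix (Fin n) (Fin n) ℝ

lemma locConv (n : ℕ) : LocallyConvexSpace ℝ (Mat n) :=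
  inferInstanceAs (LocallyConvexSpace ℝ (Fin n → Fin n → ℝ))

lemma compact_hull (hCara : Stmt_Cara) {n : ℕ} (U : Set (Mat n)) (hU : IsCompact U) :
    IsCompact (convexHull ℝ U) := by
  have h : convexHull ℝ U = (fun p : (Fin (n ^ 2 + 1) → ℝ) × (Fin (n ^ 2 + 1) → Mat n) =>
      ∑ i, p.1 i • p.2 i) '' (stdSimplex ℝ (Fin (n ^ 2 + 1)) ×ˢ Set.pi Set.univ (fun _ => U)) := by
    ext M
    constructor
    · intro hM
      obtain ⟨w, V, h1, h2, h3, h4⟩ := hCara n U M hM
      exact ⟨(w, V), ⟨⟨h1, h2⟩, fun i _ => h3 i⟩, h4⟩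
    · rintro ⟨⟨w, V⟩, ⟨⟨h1, h2⟩, h3⟩, rfl⟩
      apply (convex_convexHull ℝ U).sum_mem (fun i _ => h1 i) h2
      intro i _
      exact subset_convexHull ℝ U (h3 i (Set.mem_univ i))
  rw [h]
  apply IsCompact.image
  · exact (isCompact_stdSimplex _ _).prod (isCompact_univ_pi (fun _ => hU))
  · exact continuous_finsetSum _ (fun i _ =>
      ((continuous_apply i).comp continuous_fst).smul ((continuous_apply i).comp continuous_snd))

section

variable {E : Type} [NormedAddCommGroup E] [NormedSpace ℝ E] {n : ℕ}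

/-- The matrix of `x ⊗ x`. -/
def Out (c : E ≃ₗ[ℝ] (Fin n → ℝ)) (x : E) : Mat n := fun k l => c x k * c x l

lemma Out_smul (c : E ≃ₗ[ℝ] (Fin n → ℝ)) (r : ℝ) (x : E) : Out c (r • x) = r ^ 2 • Out c x := by
  ext k l
  simp only [Out, map_smul, Pi.smul_apply, smul_eq_mul, Matrix.smul_apply]
  ring

lemma Out_zero (c : E ≃ₗ[ℝ] (Fin n → ℝ)) : Out c 0 = 0 := by
  ext k l
  simp [Out]

lemma Out_cont [FiniteDimensional ℝ E] (c : E ≃ₗ[ℝ] (Fin n → ℝ)) : Continuous (Out c) := by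
  have hc : Continuous c := c.toLinearMap.continuous_of_finiteDimensional
  refine continuous_matrix (fun k l => ?_)
  exact ((continuous_apply k).comp hc).mul ((continuous_apply l).comp hc)

/-- The basic disjointness. -/
lemma disj (hGram : Stmt_Gram) (hCara : Stmt_Cara) (c : E ≃ₗ[ℝ] (Fin n → ℝ)) (D : ℝ)
    (hD : 1 ≤ D)
    (H : ∀ (a b : ℕ) (A : Matrix (Fin a) (Fin b) ℝ), Contr A → HS A ≤ (n : ℝ) ^ 2 + 1 →
      ∀ y : Fin b → E, ∑ i, ‖∑ j, A i j • y j‖ ^ 2 ≤ D ^ 2 * ∑ j, ‖y j‖ ^ 2)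
    (M N : Mat n) (hM : M ∈ convexHull ℝ (Out c '' Metric.sphere 0 1))
    (hN : N ∈ convexHull ℝ (Out c '' Metric.closedBall 0 1))
    (hMN : M = (1 / (4 * D ^ 2)) • N) : False := by
  set τ : ℝ := 1 / (4 * D ^ 2) with hτ
  have hτ0 : 0 ≤ τ := by positivity
  obtain ⟨w', V', hw'0, hw'1, hV', hM'⟩ := hCara n _ M hM
  obtain ⟨w, V, hw0, hw1, hV, hN'⟩ := hCara n _ N hN
  choose x hx using hV'
  choose y hy using hV
  have hx1 : ∀ i, ‖x i‖ = 1 := fun i => by simpa using (hx i).1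
  have hy1 : ∀ i, ‖y i‖ ≤ 1 := fun i => by simpa using (hy i).1
  set X : Matrix (Fin n) (Fin (n ^ 2 + 1)) ℝ := fun k i => Real.sqrt (w' i) * c (x i) k with hX
  set Y : Matrix (Fin n) (Fin (n ^ 2 + 1)) ℝ := fun k i => Real.sqrt (τ * w i) * c (y i) k with hY
  have hXX : X * X.transpose = M := by
    ext k l
    rw [Matrix.mul_apply, ← hM', Matrix.sum_apply]
    apply Finset.sum_congr rfl
    intro i _
    rw [Matrix.transpose_apply, Matrix.smul_apply, ← (hx i).2, hX]
    simp only [Out, smul_eq_mul]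
    have := Real.mul_self_sqrt (hw'0 i)
    linear_combination (c (x i) k * c (x i) l) * this
  have hYY : Y * Y.transpose = M := by
    ext k l
    rw [Matrix.mul_apply, hMN, Matrix.smul_apply, ← hN', Matrix.sum_apply, smul_eq_mul,
      Finset.mul_sum]
    apply Finset.sum_congr rfl
    intro i _
    rw [Matrix.transpose_apply, Matrix.smul_apply, ← (hy i).2, hY]
    simp only [Out, smul_eq_mul]
    have := Real.mul_self_sqrt (mul_nonneg hτ0 (hw0 i))
    linear_combination (c (y i) k * c (y i) l) * this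
  obtain ⟨A, hA1, hA2, hA3⟩ := hGram n _ _ X Y (hXX.trans hYY.symm)
  have hA2' : HS A ≤ (n : ℝ) ^ 2 + 1 := by
    refine hA2.trans ?_
    push_cast
    exact le_refl _
  have hxy : ∀ i, Real.sqrt (w' i) • x i = ∑ j, A i j • (Real.sqrt (τ * w j) • y j) := by
    intro i
    apply c.injective
    ext k
    rw [map_sum]
    simp only [map_smul]
    rw [Finset.sum_apply]
    have := hA3 i k
    simp only [hX, hY] at this
    simp only [Pi.smul_apply, smul_eq_mul]
    exact this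
  have h1 := H _ _ A hA1 hA2' (fun j => Real.sqrt (τ * w j) • y j)
  have h2 : ∑ i, ‖∑ j, A i j • (Real.sqrt (τ * w j) • y j)‖ ^ 2 = 1 := by
    rw [← hw'1]
    apply Finset.sum_congr rfl
    intro i _
    rw [← hxy i, norm_smul, hx1, mul_one, Real.norm_eq_abs, sq_abs, Real.sq_sqrt (hw'0 i)]
  have h3 : ∑ j, ‖Real.sqrt (τ * w j) • y j‖ ^ 2 ≤ τ := by
    calc ∑ j, ‖Real.sqrt (τ * w j) • y j‖ ^ 2 ≤ ∑ j, τ * w j := by
          apply Finset.sum_le_sum
          intro j _
          rw [norm_smul, mul_pow, Real.norm_eq_abs, sq_abs,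
            Real.sq_sqrt (mul_nonneg hτ0 (hw0 j))]
          have h4 : ‖y j‖ ^ 2 ≤ 1 := by
            have := hy1 j
            have h0 := norm_nonneg (y j)
            nlinarith
          have h5 := mul_nonneg hτ0 (hw0 j)
          nlinarith
      _ = τ := by rw [← Finset.mul_sum, hw1, mul_one]
  rw [h2] at h1
  have hD2 : 0 < D ^ 2 := by positivity
  have h4 : D ^ 2 * τ = 1 / 4 := by
    rw [hτ]; field_simp
  have h5 : D ^ 2 * ∑ j, ‖Real.sqrt (τ * w j) • y j‖ ^ 2 ≤ D ^ 2 * τ :=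
    mul_le_mul_of_nonneg_left h3 hD2.le
  linarith

/-- The separating functional, homogenised. -/
lemma functional (hGram : Stmt_Gram) (hCara : Stmt_Cara) [FiniteDimensional ℝ E]
    (c : E ≃ₗ[ℝ] (Fin n → ℝ)) (D : ℝ)
    (hD : 1 ≤ D)
    (H : ∀ (a b : ℕ) (A : Matrix (Fin a) (Fin b) ℝ), Contr A → HS A ≤ (n : ℝ) ^ 2 + 1 →
      ∀ y : Fin b → E, ∑ i, ‖∑ j, A i j • y j‖ ^ 2 ≤ D ^ 2 * ∑ j, ‖y j‖ ^ 2) :
    ∃ S : Mat n →ₗ[ℝ] ℝ, ∀ x, ‖x‖ ^ 2 ≤ S (Out c x) ∧ S (Out c x) ≤ 4 * D ^ 2 * ‖x‖ ^ 2 := by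
  have : ProperSpace E := FiniteDimensional.proper ℝ E
  have := locConv n
  have hD2 : 0 < D ^ 2 := by positivity
  have hC : IsCompact (convexHull ℝ (Out c '' Metric.sphere 0 1)) :=
    compact_hull hCara _ ((isCompact_sphere _ _).image (Out_cont c))
  have hC1 : IsCompact (convexHull ℝ (Out c '' Metric.closedBall 0 1)) :=
    compact_hull hCara _ ((isCompact_closedBall _ _).image (Out_cont c))
  obtain ⟨f, u, v, hf1, huv, hf2⟩ := geometric_hahn_banach_compact_closed
    (s := (1 / (4 * D ^ 2)) • convexHull ℝ (Out c '' Metric.closedBall 0 1))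
    (t := convexHull ℝ (Out c '' Metric.sphere 0 1))
    ((convex_convexHull ℝ _).smul _) (hC1.smul _) (convex_convexHull ℝ _) hC.isClosed
    (by
      rw [Set.disjoint_left]
      intro M hM hM2
      obtain ⟨N, hN, hNM⟩ := hM
      exact disj hGram hCara c D hD H M N hM2 hN hNM.symm)
  have hsph : ∀ x, ‖x‖ = 1 → v < f (Out c x) := by
    intro x hx
    apply hf2
    apply subset_convexHull
    exact ⟨x, by simpa using hx, rfl⟩
  have hball : ∀ x, ‖x‖ ≤ 1 → 1 / (4 * D ^ 2) * f (Out c x) < u := by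
    intro x hx
    have h1 := hf1 ((1 / (4 * D ^ 2)) • Out c x)
      (Set.smul_mem_smul_set (subset_convexHull ℝ _ ⟨x, by simpa using hx, rfl⟩))
    rw [map_smul, smul_eq_mul] at h1
    exact h1
  have hu : 0 < u := by
    have h1 := hball 0 (by simp)
    rw [Out_zero, map_zero, mul_zero] at h1
    exact h1
  refine ⟨u⁻¹ • (f : Mat n →ₗ[ℝ] ℝ), ?_⟩
  intro x
  have hS : (u⁻¹ • (f : Mat n →ₗ[ℝ] ℝ)) (Out c x) = u⁻¹ * f (Out c x) := rfl
  rw [hS]
  by_cases hx : x = 0
  · subst hx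
    rw [Out_zero, map_zero]
    simp
  · have hx0 : 0 < ‖x‖ := norm_pos_iff.mpr hx
    set e : E := ‖x‖⁻¹ • x with he
    have hxe : x = ‖x‖ • e := by
      rw [he, smul_smul, mul_inv_cancel₀ hx0.ne', one_smul]
    have hne : ‖e‖ = 1 := by
      rw [he, norm_smul, norm_inv, norm_norm, inv_mul_cancel₀ hx0.ne']
    have h1 : f (Out c x) = ‖x‖ ^ 2 * f (Out c e) := by
      conv_lhs => rw [hxe]
      rw [Out_smul, map_smul, smul_eq_mul]
    have h2 := hsph e hne
    have h3 := hball e hne.le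
    have h4 : 0 < ‖x‖ ^ 2 := by positivity
    have h5 : f (Out c e) < 4 * D ^ 2 * u := by
      have h6 : f (Out c e) = 4 * D ^ 2 * (1 / (4 * D ^ 2) * f (Out c e)) := by
        field_simp
      rw [h6]
      exact mul_lt_mul_of_pos_left h3 (by positivity)
    rw [h1]
    constructor
    · rw [← mul_assoc, mul_comm u⁻¹, mul_assoc]
      have h7 : 1 ≤ u⁻¹ * f (Out c e) := by
        rw [inv_mul_eq_div, le_div_iff₀ hu]
        linarith
      nlinarith
    · rw [← mul_assoc, mul_comm u⁻¹, mul_assoc, mul_comm (4 * D ^ 2)]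
      apply mul_le_mul_of_nonneg_left _ h4.le
      rw [inv_mul_eq_div, div_le_iff₀ hu]
      exact h5.le

/-- A linear functional on matrices as a quadratic form. -/
lemma lin_eq (S : Mat n →ₗ[ℝ] ℝ) (M : Mat n) :
    S M = ∑ k, ∑ l, M k l * S (Matrix.single k l 1) := by
  conv_lhs => rw [Matrix.matrix_eq_sum_single M]
  rw [map_sum]
  apply Finset.sum_congr rfl
  intro k _
  rw [map_sum]
  apply Finset.sum_congr rfl
  intro l _
  have h : Matrix.single k l (M k l) = (M k l) • Matrix.single k l (1 : ℝ) := by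
    rw [Matrix.smul_single, smul_eq_mul, mul_one]
  rw [h, map_smul, smul_eq_mul]

/-- The symmetrised matrix of the functional. -/
noncomputable def GG (S : Mat n →ₗ[ℝ] ℝ) : Mat n := fun k l =>
  (S (Matrix.single k l 1) + S (Matrix.single l k 1)) / 2

lemma quad (S : Mat n →ₗ[ℝ] ℝ) (v : Fin n → ℝ) :
    v ⬝ᵥ (GG S).mulVec v = S (fun k l => v k * v l) := by
  rw [lin_eq]
  have h1 : v ⬝ᵥ (GG S).mulVec v = ∑ k, ∑ l, (v k * v l) * GG S k l := by
    simp only [dotProduct, Matrix.mulVec]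
    apply Finset.sum_congr rfl
    intro k _
    rw [Finset.mul_sum]
    apply Finset.sum_congr rfl
    intro l _
    ring
  rw [h1]
  have h2 : ∑ k, ∑ l, (v k * v l) * GG S k l = (∑ k, ∑ l, (v k * v l) * S (Matrix.single k l 1)
      + ∑ k, ∑ l, (v k * v l) * S (Matrix.single l k 1)) / 2 := by
    rw [← Finset.sum_add_distrib, Finset.sum_div]
    apply Finset.sum_congr rfl
    intro k _
    rw [← Finset.sum_add_distrib, Finset.sum_div]
    apply Finset.sum_congr rfl
    intro l _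
    unfold GG
    ring
  have h3 : ∑ k, ∑ l, (v k * v l) * S (Matrix.single l k 1)
      = ∑ k, ∑ l, (v k * v l) * S (Matrix.single k l 1) := by
    rw [Finset.sum_comm]
    apply Finset.sum_congr rfl
    intro k _
    apply Finset.sum_congr rfl
    intro l _
    rw [mul_comm (v l)]
  rw [h2, h3]
  ring

end

end Pool.HAP.EUC

namespace Pool.HAP

open scoped MatrixOrder
open Pool.HAP.EUC

theorem stmt_Euc (hGram : Stmt_Gram) (hCara : Stmt_Cara) : Stmt_Euc := by
  intro E _ _ n hn hfin D hD H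
  have hfd : FiniteDimensional ℝ E := FiniteDimensional.of_finrank_pos (by omega)
  let c : E ≃ₗ[ℝ] (Fin n → ℝ) := (Module.finBasisOfFinrankEq ℝ E hfin).equivFun
  obtain ⟨S, hS⟩ := functional hGram hCara c D hD H
  have hq : ∀ x, c x ⬝ᵥ (GG S).mulVec (c x) = S (Out c x) := fun x => quad S (c x)
  have hpsd : (GG S).PosSemidef := by
    apply Matrix.PosSemidef.of_dotProduct_mulVec_nonneg
    · ext k l
      simp only [Matrix.conjTranspose_apply, star_trivial, GG]
      ring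
    · intro v
      have h1 := hq (c.symm v)
      rw [LinearEquiv.apply_symm_apply] at h1
      rw [star_trivial, h1]
      exact (by positivity : (0 : ℝ) ≤ ‖c.symm v‖ ^ 2).trans (hS _).1
  obtain ⟨B, hB⟩ := CStarAlgebra.nonneg_iff_eq_star_mul_self.mp hpsd.nonneg
  let T : E →ₗ[ℝ] EuclideanSpace ℝ (Fin n) :=
    (WithLp.linearEquiv 2 ℝ (Fin n → ℝ)).symm.toLinearMap ∘ₗ B.mulVecLin ∘ₗ c.toLinearMap
  have hT : ∀ x, ‖T x‖ ^ 2 = S (Out c x) := by
    intro x
    rw [← hq x, hB, EuclideanSpace.norm_sq_eq]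
    have h1 : ∀ i, T x i = (B.mulVec (c x)) i := fun i => rfl
    simp only [h1, Real.norm_eq_abs, sq_abs]
    rw [← Matrix.mulVec_mulVec, Matrix.dotProduct_mulVec, Matrix.star_eq_conjTranspose,
      Matrix.vecMul_conjTranspose, star_trivial, star_trivial]
    simp only [dotProduct, pow_two]
  refine ⟨T, fun x => ?_⟩
  have h1 := hS x
  rw [← hT x] at h1
  constructor
  · exact (sq_le_sq₀ (norm_nonneg _) (norm_nonneg _)).mp h1.1
  · have h2 : ‖T x‖ ^ 2 ≤ (2 * D * ‖x‖) ^ 2 := by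
      calc ‖T x‖ ^ 2 ≤ 4 * D ^ 2 * ‖x‖ ^ 2 := h1.2
        _ = (2 * D * ‖x‖) ^ 2 := by ring
    exact (sq_le_sq₀ (norm_nonneg _) (by positivity)).mp h2

end Pool.HAP

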