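import Pool.Agent.Work.MP_510402_an.Interface

set_option autoImplicit false

/-!
# MP_510402_an : block FASM (helper59)

The frames are obtained from the level data by restriction to a set of coordinates.
-/

namespace Pool.HAP.FASM

open scoped BigOperators InnerProductSpace
open Pool.HAP

/-- The sets of coordinates. -/
noncomputable def SS (lv : Levels) : ∀ j, Finset (Fin (nn j))
  | 0 => Finset.univ
  | (j + 1) => (Finset.image (lv.g j) (SS lv j))ᶜ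

/-- The dimensions. -/
noncomputable def NN (lv : Levels) (j : ℕ) : ℕ := (SS lv j).card

/-- Enumeration of the coordinates. -/
noncomputable def ee (lv : Levels) (j : ℕ) (a : Fin (NN lv j)) : Fin (nn j) :=
  ((SS lv j).equivFin.symm a : Fin (nn j))

lemma ee_mem (lv : Levels) (j : ℕ) (a : Fin (NN lv j)) : ee lv j a ∈ SS lv j :=
  ((SS lv j).equivFin.symm a).2

lemma ee_inj (lv : Levels) (j : ℕ) : Function.Injective (ee lv j) := by
  intro a b h
  have h1 : (SS lv j).equivFin.symm a = (SS lv j).equivFin.symm b := Subtype.ext h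
  exact (SS lv j).equivFin.symm.injective h1

lemma sum_ee (lv : Levels) (j : ℕ) (f : Fin (nn j) → ℝ) :
    ∑ a, f (ee lv j a) = ∑ v ∈ SS lv j, f v := by
  have h1 : ∑ a, f (ee lv j a) = ∑ x : {x // x ∈ SS lv j}, f x :=
    Equiv.sum_comp ((SS lv j).equivFin.symm) (fun x : {x // x ∈ SS lv j} => f x)
  rw [h1]
  exact Finset.sum_coe_sort (SS lv j) f

lemma card_succ (lv : Levels) (j : ℕ) : NN lv (j + 1) + NN lv j = nn (j + 1) := by
  have h0 : (Finset.image (lv.g j) (SS lv j)).card = NN lv j :=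
    Finset.card_image_of_injective _ (lv.g_inj j)
  have h := Finset.card_add_card_compl (Finset.image (lv.g j) (SS lv j))
  rw [Fintype.card_fin] at h
  have h2 : NN lv (j + 1) = ((Finset.image (lv.g j) (SS lv j))ᶜ).card := rfl
  omega

lemma NN_le (lv : Levels) (j : ℕ) : NN lv j ≤ nn j := by
  have h := Finset.card_le_univ (SS lv j)
  rw [Fintype.card_fin] at h
  exact h

lemma nn_eq (j : ℕ) : nn j = qq j ^ 3 := by
  unfold nn qq
  rw [← pow_mul, mul_comm]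

lemma qq_succ (j : ℕ) : qq (j + 1) = qq j ^ 2 := by
  unfold qq
  rw [← pow_mul]
  congr 1

lemma qq_ge (j : ℕ) : 2 ^ (2 ^ j + 3) ≤ qq j := by
  unfold qq
  apply Nat.pow_le_pow_right (by norm_num)
  have h : 2 ^ (j + 2) = 4 * 2 ^ j := by rw [pow_add]; ring
  have h1 : 1 ≤ 2 ^ j := Nat.one_le_two_pow
  omega

lemma qq_ge16 (j : ℕ) : 16 ≤ qq j := by
  refine le_trans ?_ (qq_ge j)
  have h1 : 1 ≤ 2 ^ j := Nat.one_le_two_pow
  calc 16 = 2 ^ 4 := by norm_num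
    _ ≤ 2 ^ (2 ^ j + 3) := Nat.pow_le_pow_right (by norm_num) (by omega)

lemma nn_succ (j : ℕ) : nn (j + 1) = nn j ^ 2 := by
  rw [nn_eq, nn_eq, qq_succ]
  ring

lemma nn_ge (j : ℕ) : 2 ≤ nn j := by
  rw [nn_eq]
  have h := qq_ge16 j
  calc 2 ≤ 16 ^ 3 := by norm_num
    _ ≤ qq j ^ 3 := Nat.pow_le_pow_left h 3

lemma half (lv : Levels) (j : ℕ) : nn j ≤ 2 * NN lv j := by
  cases j with
  | zero =>
    have h : NN lv 0 = nn 0 := by
      have h1 : NN lv 0 = (Finset.univ : Finset (Fin (nn 0))).card := rfl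
      rw [h1, Finset.card_univ, Fintype.card_fin]
    omega
  | succ j =>
    have h1 := card_succ lv j
    have h2 := NN_le lv j
    have h3 : 2 * nn j ≤ nn (j + 1) := by
      rw [nn_succ, pow_two]
      exact Nat.mul_le_mul_right _ (nn_ge j)
    omega

lemma compl_card (lv : Levels) (j : ℕ) : ((SS lv j)ᶜ).card ≤ qq j ^ 2 := by
  cases j with
  | zero =>
    have h1 : SS lv 0 = Finset.univ := rfl
    rw [h1, Finset.compl_univ]
    simp
  | succ j =>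
    have h1 : SS lv (j + 1) = (Finset.image (lv.g j) (SS lv j))ᶜ := rfl
    rw [h1, compl_compl]
    have h0 : (Finset.image (lv.g j) (SS lv j)).card = NN lv j :=
      Finset.card_image_of_injective _ (lv.g_inj j)
    rw [h0, qq_succ]
    refine (NN_le lv j).trans ?_
    rw [nn_eq]
    calc qq j ^ 3 ≤ qq j ^ 4 := Nat.pow_le_pow_right (by have := qq_ge16 j; omega) (by norm_num)
      _ = (qq j ^ 2) ^ 2 := by ring

lemma NN_pos (lv : Levels) (j : ℕ) : 0 < NN lv j := by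
  have h1 := half lv j
  have h2 := nn_ge j
  omega

/-- Bound for a partial sum. -/
lemma partial_sum (lv : Levels) (j : ℕ) (f : Fin (nn j) → ℝ) (hf : ∀ v, |f v| ≤ 1) (B : ℝ)
    (hB : |∑ v, f v| ≤ B) : |∑ v ∈ SS lv j, f v| ≤ B + (qq j : ℝ) ^ 2 := by
  have h1 : ∑ v ∈ SS lv j, f v = ∑ v, f v - ∑ v ∈ (SS lv j)ᶜ, f v := by
    rw [← Finset.sum_add_sum_compl (SS lv j) f]; ring
  have h2 : |∑ v ∈ (SS lv j)ᶜ, f v| ≤ (qq j : ℝ) ^ 2 := by
    calc |∑ v ∈ (SS lv j)ᶜ, f v| ≤ ∑ v ∈ (SS lv j)ᶜ, |f v| := Finset.abs_sum_le_sum_abs _ _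
      _ ≤ ∑ v ∈ (SS lv j)ᶜ, 1 := Finset.sum_le_sum (fun v _ => hf v)
      _ = (((SS lv j)ᶜ).card : ℝ) := by simp
      _ ≤ (qq j : ℝ) ^ 2 := by exact_mod_cast compl_card lv j
  rw [h1]
  calc |∑ v, f v - ∑ v ∈ (SS lv j)ᶜ, f v| ≤ |∑ v, f v| + |∑ v ∈ (SS lv j)ᶜ, f v| := abs_sub _ _
    _ ≤ B + (qq j : ℝ) ^ 2 := add_le_add hB h2

/-- The scaling factor. -/
noncomputable def cc (lv : Levels) (j : ℕ) : ℝ := (Real.sqrt (NN lv j))⁻¹

lemma cc_sq (lv : Levels) (j : ℕ) : cc lv j * cc lv j = ((NN lv j : ℕ) : ℝ)⁻¹ := by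
  unfold cc
  rw [← mul_inv, Real.mul_self_sqrt (Nat.cast_nonneg _)]

/-- The vectors `y`. -/
noncomputable def yv (lv : Levels) (j : ℕ) (l : Fin (nn (j + 1))) : Eu (NN lv j) :=
  WithLp.toLp 2 (fun a => cc lv j * lv.h j (lv.g j (ee lv j a)) l)

/-- The vectors `z`. -/
noncomputable def zv (lv : Levels) (j : ℕ) (l : Fin (nn (j + 1))) : Eu (NN lv (j + 1)) :=
  WithLp.toLp 2 (fun b => cc lv (j + 1) * (lv.ep (j + 1) (ee lv (j + 1) b) *
    lv.h j (ee lv (j + 1) b) l))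

lemma yv_apply (lv : Levels) (j : ℕ) (l : Fin (nn (j + 1))) (a : Fin (NN lv j)) :
    yv lv j l a = cc lv j * lv.h j (lv.g j (ee lv j a)) l := rfl

lemma zv_apply (lv : Levels) (j : ℕ) (l : Fin (nn (j + 1))) (b : Fin (NN lv (j + 1))) :
    zv lv j l b = cc lv (j + 1) * (lv.ep (j + 1) (ee lv (j + 1) b) *
    lv.h j (ee lv (j + 1) b) l) := rfl

lemma hsq (lv : Levels) (j : ℕ) (a l : Fin (nn (j + 1))) : lv.h j a l * lv.h j a l = 1 := by
  rcases lv.h_val j a l with h | h <;> rw [h] <;> norm_num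

lemma epsq (lv : Levels) (j : ℕ) (a : Fin (nn j)) : lv.ep j a * lv.ep j a = 1 := by
  rcases lv.ep_val j a with h | h <;> rw [h] <;> norm_num

lemma habs (lv : Levels) (j : ℕ) (a l : Fin (nn (j + 1))) : |lv.h j a l| = 1 := by
  rcases lv.h_val j a l with h | h <;> rw [h] <;> norm_num

lemma epabs (lv : Levels) (j : ℕ) (a : Fin (nn j)) : |lv.ep j a| = 1 := by
  rcases lv.ep_val j a with h | h <;> rw [h] <;> norm_num

lemma inner_eu {n : ℕ} (x y : Eu n) : ⟪x, y⟫_ℝ = ∑ i, x i * y i := by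
  rw [PiLp.inner_apply]
  apply Finset.sum_congr rfl
  intro i _
  simp [mul_comm]

lemma inner_yy (lv : Levels) (j : ℕ) (i l : Fin (nn (j + 1))) :
    ⟪yv lv j i, yv lv j l⟫_ℝ = ((NN lv j : ℕ) : ℝ)⁻¹ *
      ∑ v ∈ SS lv j, lv.h j (lv.g j v) i * lv.h j (lv.g j v) l := by
  rw [inner_eu, ← sum_ee, Finset.mul_sum]
  apply Finset.sum_congr rfl
  intro a _
  rw [yv_apply, yv_apply, ← cc_sq]
  ring

lemma inner_zz (lv : Levels) (j : ℕ) (i l : Fin (nn (j + 1))) :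
    ⟪zv lv j i, zv lv j l⟫_ℝ = ((NN lv (j + 1) : ℕ) : ℝ)⁻¹ *
      ∑ v ∈ SS lv (j + 1), lv.h j v i * lv.h j v l := by
  rw [inner_eu, ← sum_ee, Finset.mul_sum]
  apply Finset.sum_congr rfl
  intro a _
  rw [zv_apply, zv_apply, ← cc_sq]
  linear_combination (cc lv (j + 1) * cc lv (j + 1) * lv.h j (ee lv (j + 1) a) i *
    lv.h j (ee lv (j + 1) a) l) * epsq lv (j + 1) (ee lv (j + 1) a)

lemma inner_yz (lv : Levels) (j : ℕ) (i : Fin (nn (j + 2))) (l : Fin (nn (j + 1))) :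
    ⟪yv lv (j + 1) i, zv lv j l⟫_ℝ = ((NN lv (j + 1) : ℕ) : ℝ)⁻¹ *
      ∑ v ∈ SS lv (j + 1), lv.h (j + 1) (lv.g (j + 1) v) i * lv.ep (j + 1) v * lv.h j v l := by
  rw [inner_eu, ← sum_ee, Finset.mul_sum]
  apply Finset.sum_congr rfl
  intro a _
  rw [yv_apply, zv_apply, ← cc_sq]
  ring

lemma sum_image (lv : Levels) (j : ℕ) (i l : Fin (nn (j + 1))) :
    ∑ v ∈ SS lv (j + 1), lv.h j v i * lv.h j v l = ∑ v, lv.h j v i * lv.h j v l
      - ∑ v ∈ SS lv j, lv.h j (lv.g j v) i * lv.h j (lv.g j v) l := by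
  have h1 : SS lv (j + 1) = (Finset.image (lv.g j) (SS lv j))ᶜ := rfl
  rw [h1, ← Finset.sum_add_sum_compl (Finset.image (lv.g j) (SS lv j))
    (fun v => lv.h j v i * lv.h j v l),
    Finset.sum_image (fun x _ y _ h => lv.g_inj j h)]
  ring

lemma one_yy (lv : Levels) (j : ℕ) (l : Fin (nn (j + 1))) : ⟪yv lv j l, yv lv j l⟫_ℝ = 1 := by
  rw [inner_yy]
  have h : ∑ v ∈ SS lv j, lv.h j (lv.g j v) l * lv.h j (lv.g j v) l = ((NN lv j : ℕ) : ℝ) := by
    rw [Finset.sum_congr rfl (fun v _ => hsq lv j (lv.g j v) l)]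
    simp [NN]
  rw [h]
  exact inv_mul_cancel₀ (by have := NN_pos lv j; positivity)

lemma one_zz (lv : Levels) (j : ℕ) (l : Fin (nn (j + 1))) : ⟪zv lv j l, zv lv j l⟫_ℝ = 1 := by
  rw [inner_zz]
  have h : ∑ v ∈ SS lv (j + 1), lv.h j v l * lv.h j v l = ((NN lv (j + 1) : ℕ) : ℝ) := by
    rw [Finset.sum_congr rfl (fun v _ => hsq lv j v l)]
    simp [NN]
  rw [h]
  exact inv_mul_cancel₀ (by have := NN_pos lv (j + 1); positivity)

lemma norm_one {n : ℕ} (x : Eu n) (h : ⟪x, x⟫_ℝ = 1) : ‖x‖ = 1 := by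
  rw [real_inner_self_eq_norm_sq] at h
  nlinarith [norm_nonneg x]

lemma qpow (j : ℕ) : (2 : ℝ) ^ (2 ^ j) * 8 ≤ (qq j : ℝ) := by
  have h := qq_ge j
  have h1 : ((2 ^ (2 ^ j + 3) : ℕ) : ℝ) ≤ (qq j : ℝ) := by exact_mod_cast h
  push_cast at h1
  calc (2 : ℝ) ^ (2 ^ j) * 8 = 2 ^ (2 ^ j + 3) := by rw [pow_add]; norm_num
    _ ≤ _ := h1

/-- The inverse dimension is small. -/
lemma inv_le (lv : Levels) (j : ℕ) : ((NN lv j : ℕ) : ℝ)⁻¹ ≤ 2 / (qq j : ℝ) ^ 3 := by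
  have h := half lv j
  rw [nn_eq] at h
  have h1 : (qq j : ℝ) ^ 3 ≤ 2 * (NN lv j : ℝ) := by exact_mod_cast h
  have hq : (0 : ℝ) < (qq j : ℝ) := by have := qq_ge16 j; exact_mod_cast (by omega)
  have hN : (0 : ℝ) < (NN lv j : ℝ) := by exact_mod_cast NN_pos lv j
  rw [inv_eq_one_div, div_le_div_iff₀ hN (by positivity)]
  linarith

theorem coh (lv : Levels) (j : ℕ) (i l : Fin (nn (j + 1))) :
    (2 : ℝ) ^ (2 ^ j) * |⟪yv lv j i, yv lv j l⟫_ℝ - ⟪zv lv j i, zv lv j l⟫_ℝ| ≤ 1 := by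
  by_cases hil : i = l
  · subst hil
    rw [one_yy, one_zz]
    norm_num
  · have hA := partial_sum lv j (fun v => lv.h j (lv.g j v) i * lv.h j (lv.g j v) l)
      (fun v => by rw [abs_mul, habs, habs]; norm_num) _ (lv.coh j i l hil)
    rw [inner_yy, inner_zz, sum_image, lv.cols, if_neg hil]
    set A := ∑ v ∈ SS lv j, lv.h j (lv.g j v) i * lv.h j (lv.g j v) l with hAdef
    have e1 : ((NN lv j : ℕ) : ℝ)⁻¹ * A - ((NN lv (j + 1) : ℕ) : ℝ)⁻¹ * (0 - A)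
        = (((NN lv j : ℕ) : ℝ)⁻¹ + ((NN lv (j + 1) : ℕ) : ℝ)⁻¹) * A := by ring
    rw [e1, abs_mul]
    have hq16 := qq_ge16 j
    have hq : (0 : ℝ) < (qq j : ℝ) := by exact_mod_cast (by omega)
    have hq1 : (1 : ℝ) ≤ (qq j : ℝ) := by exact_mod_cast (by omega)
    have h1 := inv_le lv j
    have h2 := inv_le lv (j + 1)
    have h3 : 2 / (qq (j + 1) : ℝ) ^ 3 ≤ 2 / (qq j : ℝ) ^ 3 := by
      have h4 : (qq j : ℝ) ≤ (qq (j + 1) : ℝ) := by
        rw [qq_succ]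
        push_cast
        nlinarith
      apply div_le_div_of_nonneg_left (by norm_num) (by positivity)
      exact pow_le_pow_left₀ hq.le h4 3
    have hs : |((NN lv j : ℕ) : ℝ)⁻¹ + ((NN lv (j + 1) : ℕ) : ℝ)⁻¹| ≤ 4 / (qq j : ℝ) ^ 3 := by
      rw [abs_of_nonneg (by positivity)]
      calc ((NN lv j : ℕ) : ℝ)⁻¹ + ((NN lv (j + 1) : ℕ) : ℝ)⁻¹
          ≤ 2 / (qq j : ℝ) ^ 3 + 2 / (qq j : ℝ) ^ 3 := by linarith
        _ = 4 / (qq j : ℝ) ^ 3 := by ring
    have hA2 : |A| ≤ 2 * (qq j : ℝ) ^ 2 := by linarith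
    calc (2 : ℝ) ^ (2 ^ j) * (|((NN lv j : ℕ) : ℝ)⁻¹ + ((NN lv (j + 1) : ℕ) : ℝ)⁻¹| * |A|)
        ≤ (2 : ℝ) ^ (2 ^ j) * (4 / (qq j : ℝ) ^ 3 * (2 * (qq j : ℝ) ^ 2)) := by
          apply mul_le_mul_of_nonneg_left _ (by positivity)
          exact mul_le_mul hs hA2 (abs_nonneg _) (by positivity)
      _ = ((2 : ℝ) ^ (2 ^ j) * 8) / (qq j : ℝ) := by field_simp; ring
      _ ≤ 1 := by
          rw [div_le_one hq]
          exact qpow j

theorem cross (lv : Levels) (j : ℕ) (i : Fin (nn (j + 2))) (l : Fin (nn (j + 1))) :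
    (2 : ℝ) ^ (2 ^ (j + 1)) * |⟪yv lv (j + 1) i, zv lv j l⟫_ℝ| ≤ 1 := by
  have hA := partial_sum lv (j + 1) (fun v => lv.h (j + 1) (lv.g (j + 1) v) i *
    lv.ep (j + 1) v * lv.h j v l)
    (fun v => by rw [abs_mul, abs_mul, habs, habs, epabs]; norm_num) _ (lv.cross j i l)
  rw [inner_yz, abs_mul]
  set A := ∑ v ∈ SS lv (j + 1), lv.h (j + 1) (lv.g (j + 1) v) i * lv.ep (j + 1) v * lv.h j v l
    with hAdef
  have hq16 := qq_ge16 (j + 1)
  have hq : (0 : ℝ) < (qq (j + 1) : ℝ) := by exact_mod_cast (by omega)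
  have h2 := inv_le lv (j + 1)
  have hA2 : |A| ≤ 3 * (qq (j + 1) : ℝ) ^ 2 := by linarith
  have hs : |((NN lv (j + 1) : ℕ) : ℝ)⁻¹| ≤ 2 / (qq (j + 1) : ℝ) ^ 3 := by
    rw [abs_of_nonneg (by positivity)]
    exact h2
  calc (2 : ℝ) ^ (2 ^ (j + 1)) * (|((NN lv (j + 1) : ℕ) : ℝ)⁻¹| * |A|)
      ≤ (2 : ℝ) ^ (2 ^ (j + 1)) * (2 / (qq (j + 1) : ℝ) ^ 3 * (3 * (qq (j + 1) : ℝ) ^ 2)) := by
        apply mul_le_mul_of_nonneg_left _ (by positivity)
        exact mul_le_mul hs hA2 (abs_nonneg _) (by positivity)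
    _ = ((2 : ℝ) ^ (2 ^ (j + 1)) * 6) / (qq (j + 1) : ℝ) := by field_simp; ring
    _ ≤ 1 := by
        rw [div_le_one hq]
        have := qpow (j + 1)
        have h3 : (0 : ℝ) < (2 : ℝ) ^ (2 ^ (j + 1)) := by positivity
        linarith

lemma N_ge (lv : Levels) (j : ℕ) : 2 ^ (2 ^ j) ≤ NN lv j := by
  have h := half lv j
  have h1 : 2 * 2 ^ (2 ^ j) ≤ nn j := by
    rw [nn_eq]
    have h2 := qq_ge j
    have h3 : 2 ^ (2 ^ j + 3) = 8 * 2 ^ (2 ^ j) := by rw [pow_add]; ring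
    have h4 : qq j ≤ qq j ^ 3 := Nat.le_self_pow (by norm_num) _
    omega
  omega

/-- The frames. -/
noncomputable def frames (lv : Levels) : Frames where
  N := NN lv
  Lc := fun j => nn (j + 1)
  y := yv lv
  z := zv lv
  N_ge := N_ge lv
  L_pos := fun j => by have := nn_ge (j + 1); omega
  norm_y := fun j l => norm_one _ (one_yy lv j l)
  norm_z := fun j l => norm_one _ (one_zz lv j l)
  yy := by
    intro j a a'
    have h1 : ∑ l, yv lv j l a * yv lv j l a' = (cc lv j * cc lv j) *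
        ∑ l, lv.h j (lv.g j (ee lv j a)) l * lv.h j (lv.g j (ee lv j a')) l := by
      rw [Finset.mul_sum]
      apply Finset.sum_congr rfl
      intro l _
      rw [yv_apply, yv_apply]
      ring
    rw [h1, lv.rows, cc_sq]
    by_cases h : a = a'
    · subst h
      simp only [if_true]
      rw [div_eq_mul_inv, mul_comm]
    · rw [if_neg h, if_neg, mul_zero]
      intro h2
      exact h (ee_inj lv j (lv.g_inj j h2))
  zz := by
    intro j a a'
    have h1 : ∑ l, zv lv j l a * zv lv j l a' = (cc lv (j + 1) * cc lv (j + 1)) *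
        (lv.ep (j + 1) (ee lv (j + 1) a) * lv.ep (j + 1) (ee lv (j + 1) a')) *
        ∑ l, lv.h j (ee lv (j + 1) a) l * lv.h j (ee lv (j + 1) a') l := by
      rw [Finset.mul_sum]
      apply Finset.sum_congr rfl
      intro l _
      rw [zv_apply, zv_apply]
      ring
    rw [h1, lv.rows, cc_sq]
    by_cases h : a = a'
    · subst h
      simp only [if_true]
      rw [epsq, div_eq_mul_inv, mul_comm, mul_one]
    · rw [if_neg h, if_neg, mul_zero]
      intro h2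
      exact h (ee_inj lv (j + 1) h2)
  yz := by
    intro j a b
    have h1 : ∑ l, yv lv j l a * zv lv j l b = (cc lv j * cc lv (j + 1)) *
        lv.ep (j + 1) (ee lv (j + 1) b) *
        ∑ l, lv.h j (lv.g j (ee lv j a)) l * lv.h j (ee lv (j + 1) b) l := by
      rw [Finset.mul_sum]
      apply Finset.sum_congr rfl
      intro l _
      rw [yv_apply, zv_apply]
      ring
    rw [h1, lv.rows, if_neg, mul_zero]
    intro h2
    have h3 : ee lv (j + 1) b ∈ (Finset.image (lv.g j) (SS lv j))ᶜ := ee_mem lv (j + 1) b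
    rw [Finset.mem_compl] at h3
    apply h3
    rw [← h2]
    exact Finset.mem_image_of_mem _ (ee_mem lv j a)
  coh := coh lv
  cross := cross lv

end Pool.HAP.FASM

namespace Pool.HAP

theorem stmt_Frames (h : Stmt_Level) : Stmt_Frames := by
  obtain ⟨lv⟩ := h
  exact ⟨FASM.frames lv⟩

end Pool.HAP

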