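import Pool.Agent.Work.MP_510402_an.Interface

set_option autoImplicit false

/-!
# MP_510402_an : block GRAM (helper59)

Equal Gram operators differ by a contraction.
-/

namespace Pool.HAP.GRAM

open scoped BigOperators InnerProductSpace
open Pool.HAP

lemma sq_sum {n b : ℕ} (Y : Matrix (Fin n) (Fin b) ℝ) (c : Fin n → ℝ) :
    ∑ j, (∑ k, c k * Y k j) ^ 2 = ∑ k, ∑ l, c k * c l * (Y * Y.transpose) k l := by
  have h1 : ∀ j, (∑ k, c k * Y k j) ^ 2 = ∑ k, ∑ l, (c k * Y k j) * (c l * Y l j) := by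
    intro j
    rw [pow_two, Finset.sum_mul_sum]
  rw [Finset.sum_congr rfl (fun j _ => h1 j), Finset.sum_comm]
  apply Finset.sum_congr rfl
  intro k _
  rw [Finset.sum_comm]
  apply Finset.sum_congr rfl
  intro l _
  rw [Matrix.mul_apply, Finset.mul_sum]
  apply Finset.sum_congr rfl
  intro j _
  rw [Matrix.transpose_apply]
  ring

/-- Linear combinations of the rows. -/
noncomputable def Phi {n b : ℕ} (Y : Matrix (Fin n) (Fin b) ℝ) : (Fin n → ℝ) →ₗ[ℝ] Eu b where
  toFun c := WithLp.toLp 2 (fun j => ∑ k, c k * Y k j)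
  map_add' c d := by
    ext j
    simp [add_mul, Finset.sum_add_distrib]
  map_smul' r c := by
    ext j
    simp [Finset.mul_sum, mul_assoc]

lemma Phi_apply {n b : ℕ} (Y : Matrix (Fin n) (Fin b) ℝ) (c : Fin n → ℝ) (j : Fin b) :
    Phi Y c j = ∑ k, c k * Y k j := rfl

lemma norm_Phi {n b : ℕ} (Y : Matrix (Fin n) (Fin b) ℝ) (c : Fin n → ℝ) :
    ‖Phi Y c‖ ^ 2 = ∑ k, ∑ l, c k * c l * (Y * Y.transpose) k l := by
  rw [← sq_sum, EuclideanSpace.norm_sq_eq]
  apply Finset.sum_congr rfl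
  intro j _
  rw [Phi_apply, Real.norm_eq_abs, sq_abs]

lemma norm_eq {n a b : ℕ} (X : Matrix (Fin n) (Fin a) ℝ) (Y : Matrix (Fin n) (Fin b) ℝ)
    (h : X * X.transpose = Y * Y.transpose) (c : Fin n → ℝ) : ‖Phi X c‖ = ‖Phi Y c‖ := by
  have h1 : ‖Phi X c‖ ^ 2 = ‖Phi Y c‖ ^ 2 := by rw [norm_Phi, norm_Phi, h]
  exact (sq_eq_sq₀ (norm_nonneg _) (norm_nonneg _)).mp h1

theorem main {n a b : ℕ} (X : Matrix (Fin n) (Fin a) ℝ) (Y : Matrix (Fin n) (Fin b) ℝ)
    (h : X * X.transpose = Y * Y.transpose) :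
    ∃ A : Eu b →ₗ[ℝ] Eu a, (∀ v, ‖A v‖ ≤ ‖v‖) ∧ ∀ c, A (Phi Y c) = Phi X c := by
  let W : Submodule ℝ (Eu b) := LinearMap.range (Phi Y)
  obtain ⟨g, hg⟩ : ∃ g : W →ₗ[ℝ] (Fin n → ℝ), (Phi Y).rangeRestrict ∘ₗ g = LinearMap.id :=
    (Phi Y).rangeRestrict.exists_rightInverse_of_surjective
      (LinearMap.range_rangeRestrict (Phi Y))
  have hgw : ∀ w : W, Phi Y (g w) = w := by
    intro w
    have h2 := LinearMap.congr_fun hg w
    have h3 := congrArg Subtype.val h2
    exact h3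
  refine ⟨(Phi X) ∘ₗ g ∘ₗ (W.orthogonalProjectionOnto : Eu b →ₗ[ℝ] W), ?_, ?_⟩
  · intro v
    show ‖Phi X (g (W.orthogonalProjectionOnto v))‖ ≤ ‖v‖
    rw [norm_eq X Y h, hgw]
    exact W.norm_orthogonalProjectionOnto_apply_le v
  · intro c
    show Phi X (g (W.orthogonalProjectionOnto (Phi Y c))) = Phi X c
    have h2 : ((W.orthogonalProjectionOnto (Phi Y c) : W) : Eu b) = Phi Y c :=
      Submodule.starProjection_eq_self_iff.mpr (LinearMap.mem_range_self _ c)
    have h3 : Phi Y (g (W.orthogonalProjectionOnto (Phi Y c)) - c) = 0 := by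
      rw [map_sub, hgw, h2, sub_self]
    have h4 : ‖Phi X (g (W.orthogonalProjectionOnto (Phi Y c)) - c)‖ = 0 := by
      rw [norm_eq X Y h, h3, norm_zero]
    rw [norm_eq_zero, map_sub, sub_eq_zero] at h4
    exact h4

end Pool.HAP.GRAM

namespace Pool.HAP

open Pool.HAP.GRAM

theorem stmt_Gram : Stmt_Gram := by
  intro n a b X Y h
  obtain ⟨A, hA, hAc⟩ := GRAM.main X Y h
  have key : ∀ w : Fin b → ℝ, ∀ i, ∑ j, (A (EuclideanSpace.single j 1)) i * w j
      = A (WithLp.toLp 2 w) i := by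
    intro w i
    have h1 : (WithLp.toLp 2 w : Eu b) = ∑ j, w j • EuclideanSpace.single j (1 : ℝ) := by
      ext i
      simp [Finset.sum_apply, Pi.single_apply]
    rw [h1, map_sum]
    simp only [map_smul]
    rw [WithLp.ofLp_sum, Finset.sum_apply]
    apply Finset.sum_congr rfl
    intro j _
    simp [mul_comm]
  have hC : Contr (fun (i : Fin a) (j : Fin b) => (A (EuclideanSpace.single j 1)) i) := by
    intro w
    have h1 := hA (WithLp.toLp 2 w)
    have h2 : ‖A (WithLp.toLp 2 w)‖ ^ 2 ≤ ‖(WithLp.toLp 2 w : Eu b)‖ ^ 2 := by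
      exact pow_le_pow_left₀ (norm_nonneg _) h1 2
    rw [EuclideanSpace.norm_sq_eq, EuclideanSpace.norm_sq_eq] at h2
    simp only [Real.norm_eq_abs, sq_abs] at h2
    calc ∑ i, (∑ j, (A (EuclideanSpace.single j 1)) i * w j) ^ 2
        = ∑ i, (A (WithLp.toLp 2 w) i) ^ 2 := by
          apply Finset.sum_congr rfl
          intro i _
          rw [key]
      _ ≤ _ := h2
  refine ⟨fun i j => (A (EuclideanSpace.single j 1)) i, hC, ?_, ?_⟩
  · unfold HS
    rw [Finset.sum_comm]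
    have h1 : ∀ j : Fin b, ∑ i, (A (EuclideanSpace.single j 1)) i ^ 2 ≤ 1 := by
      intro j
      have h2 := hC (Pi.single j 1)
      simpa [Pi.single_apply] using h2
    calc ∑ j, ∑ i, (A (EuclideanSpace.single j 1)) i ^ 2 ≤ ∑ _j : Fin b, (1 : ℝ) :=
          Finset.sum_le_sum (fun j _ => h1 j)
      _ = b := by simp
  · intro i k
    have h1 := hAc (Pi.single k 1)
    have h2 : Phi Y (Pi.single k 1) = WithLp.toLp 2 (fun j => Y k j) := by
      ext j
      rw [Phi_apply]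
      simp [Pi.single_apply]
    have h3 : Phi X (Pi.single k 1) i = X k i := by
      rw [Phi_apply]
      simp [Pi.single_apply]
    rw [h2] at h1
    rw [← h3, ← h1, ← key]

end Pool.HAP

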